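import Pool.Agent.V7H70.DG.Inst

/-!
# Counting
-/

set_option autoImplicit false

namespace Pool.Agent.V7H70.DG

open Finset

lemma card_steps {α β : Type} [DecidableEq α] (A : ℕ → Finset α) (T : Finset β) (f : β → α → α)
    (h0 : (A 0).card ≤ 1) (hs : ∀ m, A (m + 1) ⊆ (T ×ˢ A m).image fun p => f p.1 p.2) (m : ℕ) :
    (A m).card ≤ T.card ^ m := by
  induction m with
  | zero => simpa using h0
  | succ m ih =>
    refine (card_le_card (hs m)).trans (card_image_le.trans ?_)
    rw [card_product, pow_succ, mul_comm]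
    exact Nat.mul_le_mul_right _ ih

/-- The number of subsets with at most `r` elements. -/
lemma card_small {T : Type} [Fintype T] [DecidableEq T] (r : ℕ) :
    ((univ : Finset (Finset T)).filter fun W => W.card ≤ r).card ≤ (Fintype.card T + 1) ^ r := by
  have h := card_steps (fun m => (univ : Finset (Finset T)).filter fun W => W.card ≤ m)
    (univ : Finset (Option T)) (fun o W => o.elim W fun t => insert t W) ?_ ?_ r
  · rwa [card_univ, Fintype.card_option] at h
  · have : ((univ : Finset (Finset T)).filter fun W => W.card ≤ 0) ⊆ {∅} := by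
      intro W hW
      rw [mem_filter] at hW
      rw [mem_singleton]
      exact card_eq_zero.1 (Nat.le_zero.1 hW.2)
    exact (card_le_card this).trans (by simp)
  · intro m W hW
    simp only [mem_filter, mem_univ, true_and] at hW
    rw [mem_image]
    rcases Nat.lt_or_ge m W.card with h | h
    · obtain ⟨t, ht⟩ := card_pos.1 (lt_of_le_of_lt (Nat.zero_le _) h)
      refine ⟨(some t, W.erase t), ?_, ?_⟩
      · simp only [mem_product, mem_univ, true_and, mem_filter]
        rw [card_erase_of_mem ht]
        omega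
      · exact insert_erase ht
    · refine ⟨(none, W), ?_, rfl⟩
      simp only [mem_product, mem_univ, true_and, mem_filter]
      exact h

/-- The number of the functions which differ from `x₀` only in `D`, at most at `m` places. -/
lemma card_ball {V : Type} [Fintype V] [DecidableEq V] {k : ℕ} (D : Finset V) (x₀ : V → Fin k)
    (a₀ : Fin k) (m : ℕ) :
    ((univ : Finset (V → Fin k)).filter fun x => (∀ v, v ∉ D → x v = x₀ v) ∧
      (D.filter fun d => x d ≠ x₀ d).card ≤ m).card ≤ ((D.card + 1) * k) ^ m := by
  have h := card_steps (fun m => (univ : Finset (V → Fin k)).filter fun x =>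
      (∀ v, v ∉ D → x v = x₀ v) ∧ (D.filter fun d => x d ≠ x₀ d).card ≤ m)
    ((insertNone D) ×ˢ (univ : Finset (Fin k)))
    (fun p x => p.1.elim x fun d => Function.update x d p.2) ?_ ?_ m
  · rwa [card_product, card_insertNone, card_univ, Fintype.card_fin] at h
  · have : ((univ : Finset (V → Fin k)).filter fun x => (∀ v, v ∉ D → x v = x₀ v) ∧
        (D.filter fun d => x d ≠ x₀ d).card ≤ 0) ⊆ {x₀} := by
      intro x hx
      simp only [mem_filter, mem_univ, true_and] at hx
      rw [mem_singleton]
      funext v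
      by_cases hv : v ∈ D
      · by_contra hne
        have : v ∈ D.filter fun d => x d ≠ x₀ d := mem_filter.2 ⟨hv, hne⟩
        rw [card_eq_zero.1 (Nat.le_zero.1 hx.2)] at this
        simp at this
      · exact hx.1 v hv
    exact (card_le_card this).trans (by simp)
  · intro m x hx
    simp only [mem_filter, mem_univ, true_and] at hx
    rw [mem_image]
    rcases Nat.lt_or_ge m (D.filter fun d => x d ≠ x₀ d).card with h | h
    · obtain ⟨d, hd⟩ := card_pos.1 (lt_of_le_of_lt (Nat.zero_le _) h)
      have hd' := mem_filter.1 hd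
      refine ⟨((some d, x d), Function.update x d (x₀ d)), ?_, ?_⟩
      · simp only [mem_product, mem_univ, and_true, mem_filter, true_and, some_mem_insertNone]
        refine ⟨hd'.1, fun v hv => ?_, ?_⟩
        · have : v ≠ d := by
            rintro rfl
            exact hv hd'.1
          rw [Function.update_of_ne this]
          exact hx.1 v hv
        · have h2 : (D.filter fun d' => Function.update x d (x₀ d) d' ≠ x₀ d') ⊆
              (D.filter fun d => x d ≠ x₀ d).erase d := by
            intro d' hd''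
            rw [mem_filter] at hd''
            rw [mem_erase, mem_filter]
            have hne : d' ≠ d := by
              rintro rfl
              exact hd''.2 (by rw [Function.update_self])
            rw [Function.update_of_ne hne] at hd''
            exact ⟨hne, hd''⟩
          have h3 := card_le_card h2
          rw [card_erase_of_mem hd] at h3
          omega
      · simp
    · refine ⟨((none, a₀), x), ?_, rfl⟩
      simp only [mem_product, mem_univ, and_true, mem_filter, true_and, none_mem_insertNone]
      exact ⟨hx.1, h⟩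

variable {V X S : Type} {k : ℕ}

/-- The nodes which are not in the word, while they are children of nodes in the word. -/
def missing [Fintype V] [DecidableEq V] (G : Dag V) (w : List V) : Finset V :=
  univ.filter fun d => d ≠ G.src ∧ d ∉ w ∧ ∃ u ∈ w, u ≠ G.src ∧ (G.lc u = d ∨ G.rc u = d)

lemma mem_missing [Fintype V] [DecidableEq V] {G : Dag V} {w : List V} {d : V} :
    d ∈ missing G w ↔ d ≠ G.src ∧ d ∉ w ∧ ∃ u ∈ w, u ≠ G.src ∧ (G.lc u = d ∨ G.rc u = d) := by
  unfold missing
  rw [mem_filter]
  exact and_iff_right (mem_univ _)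

lemma viol_card [Fintype V] [DecidableEq V] {G : Dag V} {φ : V × Fin k → X} {z : Fin k}
    (hφ : Function.Injective φ) (hinj : ∀ u v : V, u ≠ G.src → v ≠ G.src → G.lc u = G.lc v →
      G.rc u = G.rc v → u = v) {B : NBP (X × X) X S} {r : ℕ} (hF : Frugal B (φ (G.src, z)) r)
    {x : V → Fin k} (hx : x G.src = z) {l : List ((X × X) × Set X)}
    (hl : B.Accepting (table G φ z x) l) [DecidablePred (· ∈ viol G φ x l)] :
    ((univ : Finset (V × Fin k × Fin k)).filter (· ∈ viol G φ x l)).card ≤ r := by
  classical
  have hw := hF _ _ hl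
  rw [Set.ncard_eq_toFinset_card _ (wasteful_finite _)] at hw
  refine le_trans ?_ hw
  refine card_le_card_of_injOn (fun m => (φ (G.lc m.1, m.2.1), φ (G.rc m.1, m.2.2))) ?_ ?_
  · intro m hm
    rw [mem_coe, mem_filter] at hm
    rw [mem_coe, Set.Finite.mem_toFinset]
    obtain ⟨h1, h2, h3⟩ := hm.2
    refine ⟨h2, ?_⟩
    rintro ⟨h4, h5⟩
    rw [gen_table hφ hx] at h4 h5
    obtain ⟨u, hu⟩ := h4
    obtain ⟨v, hv⟩ := h5
    have e1 := hφ hu
    have e2 := hφ hv
    rw [Prod.mk.injEq] at e1 e2
    refine h3 (Prod.ext ?_ ?_)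
    · rw [e1.2, e1.1]
    · rw [e2.2, e2.1]
  · intro m hm m' hm' h
    rw [mem_coe, mem_filter] at hm hm'
    simp only [Prod.mk.injEq] at h
    have e1 := hφ h.1
    have e2 := hφ h.2
    rw [Prod.mk.injEq] at e1 e2
    have h1 := hinj _ _ hm.2.1 hm'.2.1 e1.1 e2.1
    exact Prod.ext h1 (Prod.ext e1.2 e2.2)

open scoped Classical in
lemma count [Fintype V] [DecidableEq V] [Fintype S] {G : Dag V} {φ : V × Fin k → X} {z : Fin k}
    (hφ : Function.Injective φ) {B : NBP (X × X) X S} {r : ℕ}
    (hF : Frugal B (φ (G.src, z)) r) (b : ℕ)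
    (h : ∀ x : V → Fin k, x G.src = z → x G.root = z → ∃ l₁ l₂ l₃ : List ((X × X) × Set X),
      B.Accepting (table G φ z x) (l₁ ++ (l₂ ++ l₃)) ∧
        b ≤ (missing G (reads G φ x l₂)).card) :
    k ^ b ≤ (Fintype.card S ^ 2 * (Fintype.card V).choose b *
      (Fintype.card V * k ^ 2 + 1) ^ r) * ((b + 1) * k) ^ (2 * r) := by
  set F : Finset (V → Fin k) := univ.filter fun x => x G.src = z ∧ x G.root = z with hFdef
  have hFpos : 0 < F.card := card_pos.2 ⟨fun _ => z, by simp [hFdef]⟩
  -- choices
  have h' : ∀ x : V → Fin k, ∃ l₁ l₂ l₃ : List ((X × X) × Set X), ∃ s t : S, ∃ D : Finset V,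
      x ∈ F → B.Accepting (table G φ z x) (l₁ ++ (l₂ ++ l₃)) ∧ B.Walk B.source s l₁ ∧
        B.Walk s t l₂ ∧ B.Walk t B.sink l₃ ∧ D ⊆ missing G (reads G φ x l₂) ∧ D.card = b := by
    intro x
    by_cases hx : x ∈ F
    · obtain ⟨h1, h2⟩ := (mem_filter.1 hx).2
      obtain ⟨l₁, l₂, l₃, h3, h4⟩ := h x h1 h2
      obtain ⟨s, h5, h6⟩ := walk_split h3.1 _ _ rfl
      obtain ⟨t, h7, h8⟩ := walk_split h6 _ _ rfl
      obtain ⟨D, h9, h10⟩ := exists_subset_card_eq h4
      exact ⟨l₁, l₂, l₃, s, t, D, fun _ => ⟨h3, h5, h7, h8, h9, h10⟩⟩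
    · exact ⟨[], [], [], B.source, B.source, ∅, fun h => absurd h hx⟩
  choose l₁ l₂ l₃ s t D hall using h'
  let W : (V → Fin k) → Finset (V × Fin k × Fin k) := fun x =>
    univ.filter (· ∈ viol G φ x (l₁ x ++ (l₂ x ++ l₃ x)))
  let key : (V → Fin k) → S × S × Finset V × Finset (V × Fin k × Fin k) := fun x =>
    (s x, t x, D x, W x)
  have hkeys : (F.image key).card ≤ Fintype.card S ^ 2 * (Fintype.card V).choose b *
      (Fintype.card V * k ^ 2 + 1) ^ r := by
    have hsub : F.image key ⊆ (univ : Finset S) ×ˢ ((univ : Finset S) ×ˢ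
        ((univ : Finset V).powersetCard b ×ˢ
          ((univ : Finset (Finset (V × Fin k × Fin k))).filter fun W => W.card ≤ r))) := by
      intro a ha
      rw [mem_image] at ha
      obtain ⟨x, hx, rfl⟩ := ha
      obtain ⟨h1, h2⟩ := (mem_filter.1 hx).2
      obtain ⟨h3, -, -, -, h4, h5⟩ := hall x hx
      simp only [key, mem_product, mem_univ, true_and, mem_powersetCard, mem_filter]
      exact ⟨⟨subset_univ _, h5⟩, viol_card hφ G.inj hF h1 h3⟩
    refine (card_le_card hsub).trans ?_
    rw [card_product, card_product, card_product, card_univ, card_powersetCard, card_univ]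
    have h1 := card_small (T := V × Fin k × Fin k) r
    rw [Fintype.card_prod, Fintype.card_prod, Fintype.card_fin, ← sq] at h1
    calc Fintype.card S * (Fintype.card S * ((Fintype.card V).choose b * _)) ≤
        Fintype.card S * (Fintype.card S * ((Fintype.card V).choose b *
          (Fintype.card V * k ^ 2 + 1) ^ r)) :=
          Nat.mul_le_mul_left _ (Nat.mul_le_mul_left _ (Nat.mul_le_mul_left _ h1))
      _ = _ := by ring
  have hfib : ∀ a ∈ F.image key, (F.filter fun x => key x = a).card * k ^ b ≤
      ((b + 1) * k) ^ (2 * r) * F.card := by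
    intro a ha
    rw [mem_image] at ha
    obtain ⟨x₀, hx₀, rfl⟩ := ha
    set D₀ := D x₀ with hD₀
    have hD₀c : D₀.card = b := (hall x₀ hx₀).2.2.2.2.2
    have hD₀s : ∀ d ∈ D₀, d ≠ G.src ∧ d ≠ G.root := by
      intro d hd
      have h1 := (hall x₀ hx₀).2.2.2.2.1 hd
      rw [mem_missing] at h1
      obtain ⟨h2, -, u, -, h3, h4⟩ := h1
      refine ⟨h2, ?_⟩
      rintro rfl
      have h5 := G.le_root u
      rcases h4 with h4 | h4
      · have := G.lc_lt u h3
        rw [h4] at this
        omega
      · have := G.rc_lt u h3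
        rw [h4] at this
        omega
    -- the pairs in the same class
    have hclass : ∀ x ∈ F, ∀ y ∈ F, key x = key x₀ → key y = key x₀ →
        (∀ v, v ∉ D₀ → x v = y v) → (D₀.filter fun d => x d ≠ y d).card ≤ 2 * r := by
      intro x hx y hy hkx hky hxy
      simp only [key, Prod.mk.injEq] at hkx hky
      obtain ⟨h1, h2, h3, -, h4, h5⟩ := hall x hx
      obtain ⟨g1, g2, g3, g4, g5, g6⟩ := hall y hy
      have hDy : ∀ d ∈ D₀, d ≠ G.src ∧ d ∉ reads G φ y (l₂ y) ∧
          ∃ u ∈ reads G φ y (l₂ y), G.lc u = d ∨ G.rc u = d := by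
        intro d hd
        rw [hD₀, ← hky.2.2.1] at hd
        have h6 := g5 hd
        rw [mem_missing] at h6
        obtain ⟨h7, h8, u, hu, -, h9⟩ := h6
        exact ⟨h7, h8, u, hu, h9⟩
      have hV : viol G φ x (l₁ x ++ (l₂ x ++ l₃ x)) = viol G φ y (l₁ y ++ (l₂ y ++ l₃ y)) := by
        have h6 : W x = W y := hkx.2.2.2.trans hky.2.2.2.symm
        ext m
        have h7 := Finset.ext_iff.1 h6 m
        simpa [W] using h7
      refine exchange hφ hF (s := s x) (t := t x) h2 (hall x hx).2.2.2.1 h1 (m₂ := l₂ y) ?_ g1 hV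
        (fun v hv => hxy v fun hvD => (hDy v hvD).2.1 hv) hDy
      rw [hkx.1, hkx.2.1, ← hky.1, ← hky.2.1]
      exact g3
    -- change the values in `D₀` arbitrarily
    let glue : (V → Fin k) × (D₀ → Fin k) → (V → Fin k) := fun p v =>
      if hv : v ∈ D₀ then p.2 ⟨v, hv⟩ else p.1 v
    have hmaps : ∀ p ∈ (F.filter fun x => key x = key x₀) ×ˢ (univ : Finset (D₀ → Fin k)),
        glue p ∈ F := by
      intro p hp
      rw [mem_product, mem_filter, hFdef, mem_filter] at hp
      obtain ⟨⟨⟨-, h1, h2⟩, -⟩, -⟩ := hp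
      rw [hFdef, mem_filter]
      refine ⟨mem_univ _, ?_, ?_⟩
      · have : G.src ∉ D₀ := fun h => (hD₀s _ h).1 rfl
        simp only [glue, this, dif_neg, not_false_eq_true]
        exact h1
      · have : G.root ∉ D₀ := fun h => (hD₀s _ h).2 rfl
        simp only [glue, this, dif_neg, not_false_eq_true]
        exact h2
    have hfib2 : ∀ y ∈ F, (((F.filter fun x => key x = key x₀) ×ˢ
        (univ : Finset (D₀ → Fin k))).filter fun p => glue p = y).card ≤
          ((b + 1) * k) ^ (2 * r) := by
      intro y _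
      rcases (((F.filter fun x => key x = key x₀) ×ˢ
        (univ : Finset (D₀ → Fin k))).filter fun p => glue p = y).eq_empty_or_nonempty with
          h0 | ⟨p₀, hp₀⟩
      · rw [h0]; simp
      · have hp₀' : p₀.1 ∈ F ∧ key p₀.1 = key x₀ ∧ glue p₀ = y := by
          simp only [mem_filter, mem_product, mem_univ, and_true] at hp₀
          exact ⟨hp₀.1.1, hp₀.1.2, hp₀.2⟩
        have hball := card_ball D₀ p₀.1 z (2 * r)
        rw [hD₀c] at hball
        refine le_trans ?_ hball
        refine card_le_card_of_injOn Prod.fst ?_ ?_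
        · intro p hp
          have hp' : p.1 ∈ F ∧ key p.1 = key x₀ ∧ glue p = y := by
            simp only [mem_coe, mem_filter, mem_product, mem_univ, and_true] at hp
            exact ⟨hp.1.1, hp.1.2, hp.2⟩
          have hout : ∀ v, v ∉ D₀ → p.1 v = p₀.1 v := by
            intro v hv
            have h1 := congrFun (hp'.2.2.trans hp₀'.2.2.symm) v
            simpa only [glue, hv, dif_neg, not_false_eq_true] using h1
          simp only [mem_coe, mem_filter, mem_univ, true_and]
          exact ⟨hout, hclass _ hp'.1 _ hp₀'.1 hp'.2.1 hp₀'.2.1 hout⟩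
        · intro p hp p' hp' hpp
          simp only [mem_coe, mem_filter] at hp hp'
          have h1 : glue p = glue p' := hp.2.trans hp'.2.symm
          refine Prod.ext hpp ?_
          funext v
          have h2 := congrFun h1 v.1
          simpa only [glue, v.2, dif_pos] using h2
    have h1 := card_le_mul_card_image_of_maps_to hmaps _ hfib2
    rw [card_product, card_univ, Fintype.card_fun, Fintype.card_coe, hD₀c, Fintype.card_fin] at h1
    exact h1
  have hsum : F.card * k ^ b ≤ (F.image key).card * (((b + 1) * k) ^ (2 * r) * F.card) := by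
    rw [card_eq_sum_card_image key F, sum_mul]
    refine (sum_le_sum hfib).trans ?_
    rw [sum_const, smul_eq_mul, ← card_eq_sum_card_image key F]
  have h2 : k ^ b * F.card ≤ ((F.image key).card * ((b + 1) * k) ^ (2 * r)) * F.card := by
    rw [mul_comm]
    refine hsum.trans (le_of_eq ?_)
    ring
  exact (Nat.le_of_mul_le_mul_right h2 hFpos).trans (Nat.mul_le_mul_right _ hkeys)

end Pool.Agent.V7H70.DG
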