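import Mathlib

/-!
# The generation problem and nondeterministic branching programs
-/

set_option autoImplicit false

namespace Pool.Agent.V7H70.DG

/-- The set generated by `e` with respect to the multiplication table `g`: the smallest set which
contains `e` and with `p` and `q` also the product `g (p, q)`. -/
inductive Gen {X : Type} (g : X × X → X) (e : X) : X → Prop
  | base : Gen g e e
  | mul {p q : X} (hp : Gen g e p) (hq : Gen g e q) : Gen g e (g (p, q))

/-- A nondeterministic branching program with nodes `S`, reading words `w : ι → A`.  Every pair of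
nodes can be joined by free edges (`none`) and by edges that test whether the letter at the place `i`
belongs to a set `Z` (`some (i, Z)`). -/
structure NBP (ι A S : Type) where
  source : S
  sink : S
  edge : S → S → Option (ι × Set A) → Prop

/-- `B.Walk s t l`: there is a path of the branching program from `s` to `t` with the list `l` of
tests. -/
inductive NBP.Walk {ι A S : Type} (B : NBP ι A S) : S → S → List (ι × Set A) → Prop
  | nil (s : S) : Walk B s s []
  | free {s t u : S} {l : List (ι × Set A)} (h : B.edge s t none) (hw : Walk B t u l) : Walk B s u l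
  | test {s t u : S} {x : ι × Set A} {l : List (ι × Set A)} (h : B.edge s t (some x))
      (hw : Walk B t u l) : Walk B s u (x :: l)

/-- `l` is the list of the tests of an accepting path for `w`: a path from the source to the sink,
all of whose tests are passed. -/
def NBP.Accepting {ι A S : Type} (B : NBP ι A S) (w : ι → A) (l : List (ι × Set A)) : Prop :=
  B.Walk B.source B.sink l ∧ ∀ x ∈ l, w x.1 ∈ x.2

/-- The branching program solves the generation problem: it accepts the multiplication table `g` if
and only if `f` belongs to the set generated by `e`. -/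
def SolvesGen {X S : Type} (B : NBP (X × X) X S) (e f : X) : Prop :=
  ∀ g : X × X → X, (∃ l, B.Accepting g l) ↔ Gen g e f

/-- The wasteful queries of a path: the pairs `(p, q)` whose product is tested, although `p` and `q`
are not both in the set generated by `e`. -/
def wasteful {X : Type} (g : X × X → X) (e : X) (l : List ((X × X) × Set X)) : Set (X × X) :=
  {r | (∃ Z, (r, Z) ∈ l) ∧ ¬ (Gen g e r.1 ∧ Gen g e r.2)}

/-- On every accepting path for every table there are at most `r` wasteful queries. -/
def Frugal {X S : Type} (B : NBP (X × X) X S) (e : X) (r : ℕ) : Prop :=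
  ∀ (g : X × X → X) (l : List ((X × X) × Set X)), B.Accepting g l → (wasteful g e l).ncard ≤ r

lemma walk_append {ι A S : Type} {B : NBP ι A S} {s t u : S} {l l' : List (ι × Set A)}
    (h : B.Walk s t l) (h' : B.Walk t u l') : B.Walk s u (l ++ l') := by
  induction h with
  | nil s => exact h'
  | free he _ ih => exact NBP.Walk.free he (ih h')
  | test he _ ih => exact NBP.Walk.test he (ih h')

lemma walk_split {ι A S : Type} {B : NBP ι A S} {s u : S} {l : List (ι × Set A)}
    (h : B.Walk s u l) : ∀ l₁ l₂ : List (ι × Set A), l = l₁ ++ l₂ →
      ∃ t, B.Walk s t l₁ ∧ B.Walk t u l₂ := by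
  induction h with
  | nil s =>
    intro l₁ l₂ h
    obtain ⟨rfl, rfl⟩ := List.append_eq_nil_iff.1 h.symm
    exact ⟨s, NBP.Walk.nil s, NBP.Walk.nil s⟩
  | free he _ ih =>
    intro l₁ l₂ h
    obtain ⟨t, h1, h2⟩ := ih l₁ l₂ h
    exact ⟨t, NBP.Walk.free he h1, h2⟩
  | @test s t u x l he hw ih =>
    intro l₁ l₂ h
    cases l₁ with
    | nil =>
      rw [List.nil_append] at h
      subst h
      exact ⟨s, NBP.Walk.nil s, NBP.Walk.test he hw⟩
    | cons y l₁ =>
      rw [List.cons_append, List.cons.injEq] at h
      obtain ⟨rfl, h⟩ := h
      obtain ⟨v, h1, h2⟩ := ih l₁ l₂ h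
      exact ⟨v, NBP.Walk.test he h1, h2⟩

/-- Every path can be shortened to a path with less tests than there are nodes. -/
lemma shorten {ι A S : Type} [Fintype S] {B : NBP ι A S} {s t : S} :
    ∀ (n : ℕ) (l : List (ι × Set A)), l.length = n → B.Walk s t l →
      ∃ l', B.Walk s t l' ∧ l' ⊆ l ∧ l'.length < Fintype.card S := by
  classical
  intro n
  induction n using Nat.strong_induction_on with
  | _ n ih =>
    intro l hl hw
    by_cases hlt : l.length < Fintype.card S
    · exact ⟨l, hw, List.Subset.refl _, hlt⟩
    push Not at hlt
    have hex : ∀ i : Fin (l.length + 1), ∃ u, B.Walk s u (l.take i) ∧ B.Walk u t (l.drop i) :=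
      fun i => walk_split hw _ _ (List.take_append_drop _ _).symm
    choose st h1 h2 using hex
    obtain ⟨i, j, hij, he⟩ := Fintype.exists_ne_map_eq_of_card_lt st (by
      rw [Fintype.card_fin]
      omega)
    have key : ∀ i j : Fin (l.length + 1), i < j → st i = st j →
        ∃ l', B.Walk s t l' ∧ l' ⊆ l ∧ l'.length < Fintype.card S := by
      intro i j hij he
      have h3 : B.Walk s t (l.take i ++ l.drop j) := walk_append (h1 i) (he ▸ h2 j)
      have h4 : (l.take i ++ l.drop j).length < n := by
        rw [List.length_append, List.length_take, List.length_drop]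
        have := i.2
        have := j.2
        have : (i : ℕ) < j := hij
        omega
      obtain ⟨l', h5, h6, h7⟩ := ih _ h4 _ rfl h3
      refine ⟨l', h5, fun x hx => ?_, h7⟩
      have := h6 hx
      rw [List.mem_append] at this
      rcases this with h | h
      · exact List.mem_of_mem_take h
      · exact List.mem_of_mem_drop h
    rcases lt_or_gt_of_ne hij with h | h
    · exact key i j h he
    · exact key j i h he.symm

end Pool.Agent.V7H70.DG
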