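import Pool.Agent.V7H70.DG.Defs

/-!
# Multiplication tables from graphs, and the exchange argument
-/

set_option autoImplicit false

namespace Pool.Agent.V7H70.DG

open Finset

/-- A directed acyclic graph in which all nodes except `src` have two children, and different nodes
have different pairs of children. -/
structure Dag (V : Type) where
  src : V
  root : V
  lc : V → V
  rc : V → V
  rank : V → ℕ
  lc_lt : ∀ v, v ≠ src → rank (lc v) < rank v
  rc_lt : ∀ v, v ≠ src → rank (rc v) < rank v
  inj : ∀ u v, u ≠ src → v ≠ src → lc u = lc v → rc u = rc v → u = v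
  le_root : ∀ v, rank v ≤ rank root
  root_ne : root ≠ src

variable {V X S : Type} {k : ℕ}

/-- The pair of elements whose product is the element for `v`, if the nodes have the values `x`. -/
def pos (G : Dag V) (φ : V × Fin k → X) (x : V → Fin k) (v : V) : X × X :=
  (φ (G.lc v, x (G.lc v)), φ (G.rc v, x (G.rc v)))

open scoped Classical in
/-- The multiplication table for the values `x`. -/
noncomputable def table (G : Dag V) (φ : V × Fin k → X) (z : Fin k) (x : V → Fin k) : X × X → X :=
  fun r => if h : ∃ v, v ≠ G.src ∧ pos G φ x v = r then φ (h.choose, x h.choose) else φ (G.src, z)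

open scoped Classical in
/-- The nodes which are read on a path. -/
noncomputable def reads (G : Dag V) (φ : V × Fin k → X) (x : V → Fin k)
    (l : List ((X × X) × Set X)) : List V :=
  l.filterMap fun t => if h : ∃ v, v ≠ G.src ∧ pos G φ x v = t.1 then some h.choose else none

/-- The wasteful queries to the tables of nodes. -/
def viol (G : Dag V) (φ : V × Fin k → X) (x : V → Fin k) (l : List ((X × X) × Set X)) :
    Set (V × Fin k × Fin k) :=
  {m | m.1 ≠ G.src ∧ (∃ Z, ((φ (G.lc m.1, m.2.1), φ (G.rc m.1, m.2.2)), Z) ∈ l) ∧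
    m.2 ≠ (x (G.lc m.1), x (G.rc m.1))}

/-- The nodes which are necessary for the root. -/
inductive Below (G : Dag V) : V → Prop
  | root : Below G G.root
  | left {v : V} (hv : Below G v) (h : v ≠ G.src) : Below G (G.lc v)
  | right {v : V} (hv : Below G v) (h : v ≠ G.src) : Below G (G.rc v)

section

variable {G : Dag V} {φ : V × Fin k → X} {z : Fin k}

lemma pos_inj (hφ : Function.Injective φ) {x y : V → Fin k} {u v : V} (hu : u ≠ G.src)
    (hv : v ≠ G.src) (h : pos G φ x u = pos G φ y v) : u = v := by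
  unfold pos at h
  rw [Prod.mk.injEq] at h
  have h1 := hφ h.1
  have h2 := hφ h.2
  rw [Prod.mk.injEq] at h1 h2
  exact G.inj u v hu hv h1.1 h2.1

lemma table_pos (hφ : Function.Injective φ) (x : V → Fin k) {v : V} (hv : v ≠ G.src) :
    table G φ z x (pos G φ x v) = φ (v, x v) := by
  have h : ∃ u, u ≠ G.src ∧ pos G φ x u = pos G φ x v := ⟨v, hv, rfl⟩
  have h1 : h.choose = v := pos_inj hφ h.choose_spec.1 hv h.choose_spec.2
  unfold table
  rw [dif_pos h, h1]

lemma table_cases (x : V → Fin k) (r : X × X) :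
    (table G φ z x r = φ (G.src, z) ∧ ∀ v, v ≠ G.src → pos G φ x v ≠ r) ∨
      ∃ v, v ≠ G.src ∧ pos G φ x v = r ∧ table G φ z x r = φ (v, x v) := by
  by_cases h : ∃ v, v ≠ G.src ∧ pos G φ x v = r
  · right
    refine ⟨h.choose, h.choose_spec.1, h.choose_spec.2, ?_⟩
    unfold table
    rw [dif_pos h]
  · left
    refine ⟨?_, fun v hv h1 => h ⟨v, hv, h1⟩⟩
    unfold table
    rw [dif_neg h]

lemma mem_reads (hφ : Function.Injective φ) {x : V → Fin k} {l : List ((X × X) × Set X)} {v : V} :
    v ∈ reads G φ x l ↔ v ≠ G.src ∧ ∃ Z, (pos G φ x v, Z) ∈ l := by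
  unfold reads
  rw [List.mem_filterMap]
  constructor
  · rintro ⟨t, ht, h⟩
    split_ifs at h with h1
    rw [Option.some.injEq] at h
    subst h
    refine ⟨h1.choose_spec.1, t.2, ?_⟩
    rw [h1.choose_spec.2]
    exact ht
  · rintro ⟨hv, Z, hZ⟩
    refine ⟨_, hZ, ?_⟩
    have h : ∃ u, u ≠ G.src ∧ pos G φ x u = pos G φ x v := ⟨v, hv, rfl⟩
    have h1 : h.choose = v := pos_inj hφ h.choose_spec.1 hv h.choose_spec.2
    rw [dif_pos h, h1]

lemma gen_table (hφ : Function.Injective φ) {x : V → Fin k} (hx : x G.src = z) {p : X} :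
    Gen (table G φ z x) (φ (G.src, z)) p ↔ ∃ v, p = φ (v, x v) := by
  constructor
  · intro h
    induction h with
    | base => exact ⟨G.src, by rw [hx]⟩
    | mul hp hq _ _ =>
      rcases table_cases (G := G) (φ := φ) (z := z) x (_, _) with ⟨h, -⟩ | ⟨v, -, -, h⟩
      · exact ⟨G.src, by rw [h, hx]⟩
      · exact ⟨v, h⟩
  · have key : ∀ (n : ℕ) (v : V), G.rank v = n →
        Gen (table G φ z x) (φ (G.src, z)) (φ (v, x v)) := by
      intro n
      induction n using Nat.strong_induction_on with
      | _ n ih =>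
        intro v hv
        by_cases h : v = G.src
        · rw [h, hx]
          exact Gen.base
        · rw [← table_pos (z := z) hφ x h]
          exact Gen.mul (ih _ (hv ▸ G.lc_lt v h) _ rfl) (ih _ (hv ▸ G.rc_lt v h) _ rfl)
    rintro ⟨v, rfl⟩
    exact key _ v rfl

/-- On an accepting path all nodes below the root are read. -/
lemma reads_of_below (hφ : Function.Injective φ) {B : NBP (X × X) X S}
    (hB : SolvesGen B (φ (G.src, z)) (φ (G.root, z))) {x : V → Fin k} (hr : x G.root = z) {l : List ((X × X) × Set X)} (hl : B.Accepting (table G φ z x) l) {v : V}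
    (hv : Below G v) (hs : v ≠ G.src) : v ∈ reads G φ x l := by
  classical
  by_contra hcon
  set g' : X × X → X := fun r => if r = pos G φ x v then φ (G.src, z) else table G φ z x r with hg'
  have hacc : B.Accepting g' l := by
    refine ⟨hl.1, fun t ht => ?_⟩
    have h1 : t.1 ≠ pos G φ x v := by
      intro h
      exact hcon ((mem_reads hφ).2 ⟨hs, t.2, by rw [← h]; exact ht⟩)
    simp only [hg', h1, if_false]
    exact hl.2 t ht
  have hgen := (hB g').1 ⟨l, hacc⟩
  have key : ∀ p, Gen g' (φ (G.src, z)) p → ∀ u, p = φ (u, x u) → u ≠ G.src →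
      pos G φ x u ≠ pos G φ x v ∧ Gen g' (φ (G.src, z)) (φ (G.lc u, x (G.lc u))) ∧
        Gen g' (φ (G.src, z)) (φ (G.rc u, x (G.rc u))) := by
    intro p hp u hu hus
    cases hp with
    | base =>
      have := hφ hu
      rw [Prod.mk.injEq] at this
      exact absurd this.1.symm hus
    | @mul p q hp hq =>
      simp only [hg'] at hu
      split_ifs at hu with h
      · have := hφ hu
        rw [Prod.mk.injEq] at this
        exact absurd this.1.symm hus
      · rcases table_cases (G := G) (φ := φ) (z := z) x (p, q) with ⟨h1, -⟩ | ⟨w, hw, hw1, hw2⟩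
        · rw [h1] at hu
          have := hφ hu
          rw [Prod.mk.injEq] at this
          exact absurd this.1.symm hus
        · rw [hw2] at hu
          have := hφ hu
          rw [Prod.mk.injEq] at this
          obtain ⟨rfl, -⟩ := this
          rw [hw1]
          have h3 := hw1
          unfold pos at h3
          rw [Prod.mk.injEq] at h3
          exact ⟨h, by rw [h3.1]; exact hp, by rw [h3.2]; exact hq⟩
  have hall : ∀ u, Below G u → Gen g' (φ (G.src, z)) (φ (u, x u)) := by
    intro u hu
    induction hu with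
    | root => rw [hr]; exact hgen
    | left _ h ih => exact (key _ ih _ rfl h).2.1
    | right _ h ih => exact (key _ ih _ rfl h).2.2
  exact (key _ (hall v hv) v rfl hs).1 rfl

lemma wasteful_finite {g : X × X → X} {e : X} (l : List ((X × X) × Set X)) :
    (wasteful g e l).Finite := by
  have h1 : ({t | t ∈ l} : Set ((X × X) × Set X)).Finite := l.finite_toSet
  refine (h1.image Prod.fst).subset ?_
  rintro r ⟨⟨Z, hZ⟩, -⟩
  exact ⟨(r, Z), hZ, rfl⟩

/-- The exchange argument. -/
lemma exchange (hφ : Function.Injective φ) {B : NBP (X × X) X S} {r : ℕ}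
    (hF : Frugal B (φ (G.src, z)) r) {x y : V → Fin k}
    {s t : S} {l₁ l₂ l₃ m₁ m₂ m₃ : List ((X × X) × Set X)}
    (hx1 : B.Walk B.source s l₁) (hx3 : B.Walk t B.sink l₃)
    (hx : B.Accepting (table G φ z x) (l₁ ++ (l₂ ++ l₃)))
    (hy2 : B.Walk s t m₂) (hy : B.Accepting (table G φ z y) (m₁ ++ (m₂ ++ m₃)))
    (hW : viol G φ x (l₁ ++ (l₂ ++ l₃)) = viol G φ y (m₁ ++ (m₂ ++ m₃)))
    (hxy : ∀ v ∈ reads G φ y m₂, x v = y v) {D : Finset V}
    (hD : ∀ d ∈ D, d ≠ G.src ∧ d ∉ reads G φ y m₂ ∧
      ∃ u ∈ reads G φ y m₂, G.lc u = d ∨ G.rc u = d) [DecidableEq V] :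
    (D.filter fun d => x d ≠ y d).card ≤ 2 * r := by
  classical
  set K : X × X → X := fun q => if ∃ Z, (q, Z) ∈ m₂ then table G φ z y q else table G φ z x q
    with hK
  have hKm : ∀ q, (∃ Z, (q, Z) ∈ m₂) → K q = table G φ z y q := fun q h => by
    simp only [hK, h, if_true]
  have hKx : ∀ q, ¬ (∃ Z, (q, Z) ∈ m₂) → K q = table G φ z x q := fun q h => by
    simp only [hK, h, if_false]
  -- the two tables agree on the pairs which are tested on both paths
  have hagree : ∀ q, (∃ Z, (q, Z) ∈ l₁ ++ (l₂ ++ l₃)) → (∃ Z, (q, Z) ∈ m₂) →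
      table G φ z y q = table G φ z x q := by
    rintro q ⟨Z, hZ⟩ ⟨Z', hZ'⟩
    have hZ'' : (q, Z') ∈ m₁ ++ (m₂ ++ m₃) := by simp [hZ']
    rcases table_cases (G := G) (φ := φ) (z := z) x q with ⟨h1, h1'⟩ | ⟨v, hv, hvq, h1⟩
    · rcases table_cases (G := G) (φ := φ) (z := z) y q with ⟨h2, -⟩ | ⟨v, hv, hvq, h2⟩
      · rw [h1, h2]
      · -- the pair is the place of `v` for `y`
        exfalso
        by_cases hc : (y (G.lc v), y (G.rc v)) = (x (G.lc v), x (G.rc v))
        · rw [Prod.mk.injEq] at hc
          refine h1' v hv ?_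
          rw [← hvq]
          unfold pos
          rw [hc.1, hc.2]
        · have h3 : (v, y (G.lc v), y (G.rc v)) ∈ viol G φ x (l₁ ++ (l₂ ++ l₃)) :=
            ⟨hv, ⟨Z, by
              have : (φ (G.lc v, y (G.lc v)), φ (G.rc v, y (G.rc v))) = q := hvq
              rw [this]
              exact hZ⟩, hc⟩
          rw [hW] at h3
          exact h3.2.2 rfl
    · by_cases hc : (x (G.lc v), x (G.rc v)) = (y (G.lc v), y (G.rc v))
      · rw [Prod.mk.injEq] at hc
        have h2 : pos G φ y v = q := by
          rw [← hvq]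
          unfold pos
          rw [hc.1, hc.2]
        have h3 : v ∈ reads G φ y m₂ := (mem_reads hφ).2 ⟨hv, Z', by rw [h2]; exact hZ'⟩
        rw [h1, ← h2, table_pos hφ y hv, hxy v h3]
      · exfalso
        have h3 : (v, x (G.lc v), x (G.rc v)) ∈ viol G φ y (m₁ ++ (m₂ ++ m₃)) :=
          ⟨hv, ⟨Z', by
            have : (φ (G.lc v, x (G.lc v)), φ (G.rc v, x (G.rc v))) = q := hvq
            rw [this]
            exact hZ''⟩, hc⟩
        rw [← hW] at h3
        exact h3.2.2 rfl
  have hacc : B.Accepting K (l₁ ++ (m₂ ++ l₃)) := by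
    refine ⟨walk_append hx1 (walk_append hy2 hx3), fun q hq => ?_⟩
    have hout : q ∈ l₁ ++ (l₂ ++ l₃) → K q.1 ∈ q.2 := by
      intro hq
      by_cases h : ∃ Z, (q.1, Z) ∈ m₂
      · rw [hKm _ h, hagree q.1 ⟨q.2, hq⟩ h]
        exact hx.2 q hq
      · rw [hKx _ h]
        exact hx.2 q hq
    rw [List.mem_append, List.mem_append] at hq
    rcases hq with hq | hq | hq
    · exact hout (by simp [hq])
    · rw [hKm _ ⟨q.2, hq⟩]
      exact hy.2 q (by simp [hq])
    · exact hout (by simp [hq])
  -- the generated elements for the nodes in `D`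
  have hgenD : ∀ d ∈ D, ∀ a, Gen K (φ (G.src, z)) (φ (d, a)) → a = x d := by
    intro d hd a ha
    obtain ⟨hds, hdr, -⟩ := hD d hd
    generalize hp : φ (d, a) = p at ha
    cases ha with
    | base =>
      have := hφ hp
      rw [Prod.mk.injEq] at this
      exact absurd this.1 hds
    | @mul p q _ _ =>
      by_cases h : ∃ Z, ((p, q), Z) ∈ m₂
      · rw [hKm _ h] at hp
        rcases table_cases (G := G) (φ := φ) (z := z) y (p, q) with ⟨h1, -⟩ | ⟨v, hv, hvq, h1⟩
        · rw [h1] at hp
          have := hφ hp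
          rw [Prod.mk.injEq] at this
          exact absurd this.1 hds
        · rw [h1] at hp
          have := hφ hp
          rw [Prod.mk.injEq] at this
          obtain ⟨rfl, -⟩ := this
          obtain ⟨Z, hZ⟩ := h
          exact absurd ((mem_reads hφ).2 ⟨hv, Z, by rw [hvq]; exact hZ⟩) hdr
      · rw [hKx _ h] at hp
        rcases table_cases (G := G) (φ := φ) (z := z) x (p, q) with ⟨h1, -⟩ | ⟨v, hv, hvq, h1⟩
        · rw [h1] at hp
          have := hφ hp
          rw [Prod.mk.injEq] at this
          exact absurd this.1 hds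
        · rw [h1] at hp
          have := hφ hp
          rw [Prod.mk.injEq] at this
          obtain ⟨rfl, h2⟩ := this
          exact h2
  -- every changed node makes a query of its parent wasteful
  have hw := hF K _ hacc
  set W : Finset (X × X) := (wasteful_finite (g := K) (e := φ (G.src, z))
    (l₁ ++ (m₂ ++ l₃))).toFinset with hWdef
  have hWcard : W.card ≤ r := by
    rw [Set.ncard_eq_toFinset_card _ (wasteful_finite _)] at hw
    exact hw
  have hpar : ∀ d : V, ∃ u : V, d ∈ D → u ∈ reads G φ y m₂ ∧ (G.lc u = d ∨ G.rc u = d) := by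
    intro d
    by_cases hd : d ∈ D
    · obtain ⟨u, hu, h⟩ := (hD d hd).2.2
      exact ⟨u, fun _ => ⟨hu, h⟩⟩
    · exact ⟨d, fun h => absurd h hd⟩
  choose par hpar using hpar
  have hmaps : ∀ d ∈ D.filter (fun d => x d ≠ y d), pos G φ y (par d) ∈ W := by
    intro d hd
    rw [mem_filter] at hd
    obtain ⟨hu, hpd⟩ := hpar d hd.1
    obtain ⟨hus, Z, hZ⟩ := (mem_reads hφ).1 hu
    rw [hWdef, Set.Finite.mem_toFinset]
    refine ⟨⟨Z, by simp [hZ]⟩, ?_⟩
    rintro ⟨h1, h2⟩
    rcases hpd with h | h
    · have h3 : Gen K (φ (G.src, z)) (φ (G.lc (par d), y (G.lc (par d)))) := h1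
      rw [h] at h3
      exact hd.2 (hgenD d hd.1 _ h3).symm
    · have h3 : Gen K (φ (G.src, z)) (φ (G.rc (par d), y (G.rc (par d)))) := h2
      rw [h] at h3
      exact hd.2 (hgenD d hd.1 _ h3).symm
  have hfib : ∀ q ∈ W, ((D.filter (fun d => x d ≠ y d)).filter
      fun d => pos G φ y (par d) = q).card ≤ 2 := by
    intro q _
    rcases ((D.filter (fun d => x d ≠ y d)).filter
      fun d => pos G φ y (par d) = q).eq_empty_or_nonempty with h0 | ⟨d₀, hd₀⟩
    · rw [h0]; simp
    · have hsub : ((D.filter (fun d => x d ≠ y d)).filter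
          fun d => pos G φ y (par d) = q) ⊆ {G.lc (par d₀), G.rc (par d₀)} := by
        intro d hd
        rw [mem_filter, mem_filter] at hd hd₀
        obtain ⟨hu, hpd⟩ := hpar d hd.1.1
        obtain ⟨hu₀, -⟩ := hpar d₀ hd₀.1.1
        have h1 : par d = par d₀ := pos_inj hφ ((mem_reads hφ).1 hu).1 ((mem_reads hφ).1 hu₀).1
          (hd.2.trans hd₀.2.symm)
        rw [mem_insert, mem_singleton, ← h1]
        rcases hpd with h | h
        · exact Or.inl h.symm
        · exact Or.inr h.symm
      exact (card_le_card hsub).trans card_le_two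
  have h1 := card_le_mul_card_image_of_maps_to (s := D.filter fun d => x d ≠ y d) hmaps 2 hfib
  omega

end

end Pool.Agent.V7H70.DG
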