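import Pool.Agent.V7H70.DG.Word

/-!
# The lower bounds, and a program
-/

set_option autoImplicit false

namespace Pool.Agent.V7H70.DG

open Finset

lemma exists_interval {b M k : ℕ} (hM : 3 * b + 1 ≤ M) {X S : Type} [Fintype S]
    {φ : Node b M × Fin k → X} (hφ : Function.Injective φ) {z : Fin k} {B : NBP (X × X) X S}
    (hB : SolvesGen B (φ ((graph b M).src, z)) (φ ((graph b M).root, z)))
    (hS : Fintype.card S ≤ 2 ^ b) {x : Node b M → Fin k} (hx : x (graph b M).src = z)
    (hr : x (graph b M).root = z) :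
    ∃ l₁ l₂ l₃ : List ((X × X) × Set X),
      B.Accepting (table (graph b M) φ z x) (l₁ ++ (l₂ ++ l₃)) ∧
        b + 1 ≤ (missing (graph b M) (reads (graph b M) φ x l₂)).card := by
  have hgen : Gen (table (graph b M) φ z x) (φ ((graph b M).src, z))
      (φ ((graph b M).root, z)) := (gen_table hφ hx).2 ⟨_, by rw [hr]⟩
  obtain ⟨l, hl⟩ := (hB _).2 hgen
  obtain ⟨l', h1, h2, h3⟩ := shorten _ l rfl hl.1
  have hl' : B.Accepting (table (graph b M) φ z x) l' := ⟨h1, fun t ht => hl.2 t (h2 ht)⟩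
  by_contra hcon
  push Not at hcon
  set w := reads (graph b M) φ x l' with hw
  have hI : ∀ I : List (Node b M), I <:+: w → (missing (graph b M) I).card ≤ b := by
    rintro I ⟨u, v, huv⟩
    rw [hw] at huv
    unfold reads at huv
    have huv' := huv.symm
    rw [List.filterMap_eq_append_iff] at huv'
    obtain ⟨l₁₂, l₃, rfl, h12, h3'⟩ := huv'
    rw [List.filterMap_eq_append_iff] at h12
    obtain ⟨l₁, l₂, rfl, h1', h2'⟩ := h12
    have := hcon l₁ l₂ l₃ (by rwa [← List.append_assoc])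
    have h4 : reads (graph b M) φ x l₂ = I := h2'
    rw [h4] at this
    omega
  have hfull := cnt_full (J := b) (M := M) (w := w)
    fun v hv hs => reads_of_below hφ hB hr hl' hv hs
  have h4 := word_long hM b (Nat.le_succ b) w hI (by omega)
  have h5 : w.length ≤ l'.length := List.length_filterMap_le _ _
  omega

lemma pow_self_le (m : ℕ) : m ^ m ≤ 3 ^ m * m.factorial := by
  have h1 := Real.pow_div_factorial_le_exp (m : ℝ) (Nat.cast_nonneg m) m
  have h2 : Real.exp (m : ℝ) ≤ 3 ^ m := by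
    have h3 : (m : ℝ) = m * 1 := by ring
    rw [h3, Real.exp_nat_mul]
    refine pow_le_pow_left₀ (Real.exp_pos 1).le ?_ m
    have := Real.exp_one_lt_d9
    linarith
  have h3 : (0 : ℝ) < m.factorial := by exact_mod_cast m.factorial_pos
  rw [div_le_iff₀ h3] at h1
  have h4 : ((m ^ m : ℕ) : ℝ) ≤ ((3 ^ m * m.factorial : ℕ) : ℝ) := by
    push_cast
    calc (m : ℝ) ^ m ≤ Real.exp m * m.factorial := h1
      _ ≤ 3 ^ m * m.factorial := mul_le_mul_of_nonneg_right h2 h3.le
  exact_mod_cast h4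

lemma choose_bound (n m : ℕ) : m ^ m * n.choose m ≤ 3 ^ m * n ^ m := by
  have h1 : m.factorial * n.choose m ≤ n ^ m := by
    rw [← Nat.descFactorial_eq_factorial_mul_choose]
    exact Nat.descFactorial_le_pow n m
  calc m ^ m * n.choose m ≤ (3 ^ m * m.factorial) * n.choose m :=
        Nat.mul_le_mul_right _ (pow_self_le m)
    _ = 3 ^ m * (m.factorial * n.choose m) := by ring
    _ ≤ 3 ^ m * n ^ m := Nat.mul_le_mul_left _ h1

lemma no_bound {b q : ℕ} (hq : 0 < q) :
    ¬ (12 * q) ^ (b + 1) ≤ 4 ^ b * ((b + 1) * q).choose (b + 1) := by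
  intro h
  have h1 := Nat.mul_le_mul_left ((b + 1) ^ (b + 1)) h
  have h2 := choose_bound ((b + 1) * q) (b + 1)
  have h3 : (b + 1) ^ (b + 1) * (12 * q) ^ (b + 1) = 4 * 4 ^ b * (3 ^ (b + 1) *
      ((b + 1) * q) ^ (b + 1)) := by
    rw [← mul_pow, ← pow_succ', ← mul_pow, ← mul_pow]
    congr 1
    ring
  have h4 : (b + 1) ^ (b + 1) * (4 ^ b * ((b + 1) * q).choose (b + 1)) =
      4 ^ b * ((b + 1) ^ (b + 1) * ((b + 1) * q).choose (b + 1)) := by ring
  rw [h3, h4] at h1
  have h5 := h1.trans (Nat.mul_le_mul_left (4 ^ b) h2)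
  have h6 : 0 < 4 ^ b * (3 ^ (b + 1) * ((b + 1) * q) ^ (b + 1)) := by positivity
  have h7 : 4 * 4 ^ b * (3 ^ (b + 1) * ((b + 1) * q) ^ (b + 1)) =
      4 * (4 ^ b * (3 ^ (b + 1) * ((b + 1) * q) ^ (b + 1))) := by ring
  omega

/-- An injection with two prescribed values. -/
lemma exists_inj {Y : Type} [Fintype Y] {n : ℕ} (h : Fintype.card Y ≤ n) {p q : Y} (hpq : p ≠ q)
    {e f : Fin n} (hef : e ≠ f) : ∃ φ : Y → Fin n, Function.Injective φ ∧ φ p = e ∧ φ q = f := by
  classical
  obtain ⟨φ₀⟩ := Function.Embedding.nonempty_of_card_le (α := Y) (β := Fin n) (by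
    rwa [Fintype.card_fin])
  set σ := Equiv.swap (φ₀ p) e with hσ
  have h1 : σ (φ₀ p) = e := Equiv.swap_apply_left _ _
  have h2 : σ (φ₀ q) ≠ e := by
    rw [← h1]
    exact fun h => hpq (φ₀.injective (σ.injective h)).symm
  set τ := Equiv.swap (σ (φ₀ q)) f with hτ
  refine ⟨fun y => τ (σ (φ₀ y)), fun y y' h => φ₀.injective (σ.injective (τ.injective h)), ?_, ?_⟩
  · change τ (σ (φ₀ p)) = e
    rw [h1, hτ]
    exact Equiv.swap_apply_of_ne_of_ne h2.symm hef
  · exact Equiv.swap_apply_left _ _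

lemma bound_aux {b k r n : ℕ} {e f : Fin n} (hef : e ≠ f) {S : Type} [Fintype S]
    {B : NBP (Fin n × Fin n) (Fin n) S} (hB : SolvesGen B e f) (hF : Frugal B e r)
    (hS : Fintype.card S ≤ 2 ^ b) (hk : 0 < k)
    (hn : (b + 1) * ((3 * b + 2) ^ 2 + 3) * k ≤ n) :
    k ^ (b + 1) ≤ 4 ^ b * ((b + 1) * ((3 * b + 2) ^ 2 + 3)).choose (b + 1) *
      (((b + 1) * ((3 * b + 2) ^ 2 + 3) * k ^ 2 + 1) ^ r * ((b + 2) * k) ^ (2 * r)) := by
  have hcard : Fintype.card (Node b (3 * b + 1)) = (b + 1) * ((3 * b + 2) ^ 2 + 3) := by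
    rw [card_node]
    ring
  set z : Fin k := ⟨0, hk⟩ with hz
  obtain ⟨φ, hφ, h1, h2⟩ := exists_inj (Y := Node b (3 * b + 1) × Fin k) (n := n) (by
    rw [Fintype.card_prod, hcard, Fintype.card_fin]
    exact hn) (p := ((graph b (3 * b + 1)).src, z)) (q := ((graph b (3 * b + 1)).root, z))
    (fun h => (graph b (3 * b + 1)).root_ne (congrArg Prod.fst h).symm) hef
  rw [← h1, ← h2] at hB
  rw [← h1] at hF
  have h3 := count hφ hF (b + 1) fun x hx hr => exists_interval le_rfl hφ hB hS hx hr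
  rw [hcard] at h3
  refine h3.trans ?_
  have h4 : Fintype.card S ^ 2 ≤ 4 ^ b := by
    calc Fintype.card S ^ 2 ≤ (2 ^ b) ^ 2 := Nat.pow_le_pow_left hS 2
      _ = 4 ^ b := by rw [← pow_mul, mul_comm, pow_mul]; norm_num
  rw [mul_assoc, mul_assoc, mul_assoc (4 ^ b)]
  exact Nat.mul_le_mul h4 le_rfl

lemma q_le (b : ℕ) : (3 * b + 2) ^ 2 + 3 ≤ 9 * (b + 1) ^ 2 := by
  have h1 : (3 * b + 2) ^ 2 + 3 = 9 * b ^ 2 + 12 * b + 7 := by ring
  have h2 : 9 * (b + 1) ^ 2 = 9 * b ^ 2 + 18 * b + 9 := by ring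
  omega

/-- The lower bound. -/
theorem lower {b r k n : ℕ} (hr : 8 * r ≤ b + 1)
    (hk : (108 * (b + 1) ^ 2) ^ (b + 1) ≤ k ^ (b + 1 - 8 * r)) (hn : 9 * (b + 1) ^ 3 * k ≤ n)
    {e f : Fin n} (hef : e ≠ f) {S : Type} [Fintype S] {B : NBP (Fin n × Fin n) (Fin n) S}
    (hB : SolvesGen B e f) (hF : Frugal B e r) : 2 ^ b < Fintype.card S := by
  by_contra hcon
  push Not at hcon
  set q := 9 * (b + 1) ^ 2 with hq
  have hq0 : 0 < q := by positivity
  have e12 : 108 * (b + 1) ^ 2 = 12 * q := by rw [hq]; ring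
  rw [e12] at hk
  have hk0 : 0 < k := by
    rcases Nat.eq_zero_or_pos k with h | h
    · exfalso
      rw [h] at hk
      have h1 : 12 * q ≤ (12 * q) ^ (b + 1) := Nat.le_self_pow (by omega) _
      have h2 : 0 ^ (b + 1 - 8 * r) ≤ 1 := by
        rcases Nat.eq_zero_or_pos (b + 1 - 8 * r) with h3 | h3
        · rw [h3]; simp
        · rw [Nat.zero_pow h3]; omega
      omega
    · exact h
  have hkq : 12 * q ≤ k := by
    have h1 : (12 * q) ^ (b + 1) ≤ k ^ (b + 1) :=
      hk.trans (Nat.pow_le_pow_right hk0 (Nat.sub_le _ _))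
    exact (Nat.pow_le_pow_iff_left (by omega)).1 h1
  have hV : (b + 1) * ((3 * b + 2) ^ 2 + 3) ≤ (b + 1) * q := Nat.mul_le_mul_left _ (q_le b)
  have h1 := bound_aux (k := k) hef hB hF hcon hk0 (by
    refine le_trans ?_ hn
    refine Nat.mul_le_mul_right _ (hV.trans (le_of_eq ?_))
    rw [hq]
    ring)
  set V := (b + 1) * ((3 * b + 2) ^ 2 + 3) with hVdef
  have h2 : V + 1 ≤ k ^ 2 := by
    have h3 : (12 * q) ^ 2 ≤ k ^ 2 := Nat.pow_le_pow_left hkq 2
    have h4 : b + 1 ≤ q := by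
      rw [hq]
      nlinarith
    have h5 : (b + 1) * q ≤ q * q := Nat.mul_le_mul_right _ h4
    have h6 : (12 * q) ^ 2 = 144 * (q * q) := by ring
    have h7 : 1 ≤ q * q := Nat.mul_pos hq0 hq0
    omega
  have h3 : V * k ^ 2 + 1 ≤ k ^ 4 := by
    have h4 : 1 ≤ k ^ 2 := Nat.one_le_pow _ _ hk0
    have h5 : (V + 1) * k ^ 2 = V * k ^ 2 + k ^ 2 := by ring
    calc V * k ^ 2 + 1 ≤ (V + 1) * k ^ 2 := by
          rw [h5]
          exact Nat.add_le_add_left h4 _
      _ ≤ k ^ 2 * k ^ 2 := Nat.mul_le_mul_right _ h2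
      _ = k ^ 4 := by ring
  have h4 : (b + 2) * k ≤ k ^ 2 := by
    rw [sq]
    refine Nat.mul_le_mul_right _ ?_
    have : b + 2 ≤ 12 * q := by
      rw [hq]
      nlinarith
    omega
  have h5 : (V * k ^ 2 + 1) ^ r * ((b + 2) * k) ^ (2 * r) ≤ k ^ (8 * r) := by
    calc (V * k ^ 2 + 1) ^ r * ((b + 2) * k) ^ (2 * r) ≤ (k ^ 4) ^ r * (k ^ 2) ^ (2 * r) :=
          Nat.mul_le_mul (Nat.pow_le_pow_left h3 _) (Nat.pow_le_pow_left h4 _)
      _ = k ^ (8 * r) := by
          rw [← pow_mul, ← pow_mul, ← pow_add]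
          congr 1
          ring
  have h6 : k ^ (b + 1 - 8 * r) * k ^ (8 * r) ≤ 4 ^ b * V.choose (b + 1) * k ^ (8 * r) := by
    rw [← pow_add, Nat.sub_add_cancel hr]
    exact h1.trans (Nat.mul_le_mul_left _ h5)
  have h7 := Nat.le_of_mul_le_mul_right h6 (by positivity)
  exact no_bound hq0 (hk.trans (h7.trans (Nat.mul_le_mul_left _ (Nat.choose_le_choose _ hV))))

/-- The program whose nodes are the sets of elements generated so far. -/
def setProgram {X : Type} [DecidableEq X] (e f : X) : NBP (X × X) X (Option (Finset X)) where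
  source := some {e}
  sink := none
  edge s t o := match s, t, o with
    | some A, some A', some (r, Z) => r.1 ∈ A ∧ r.2 ∈ A ∧ ∃ c, Z = {c} ∧ A' = insert c A
    | some A, none, none => f ∈ A
    | _, _, _ => False

lemma setProgram_walk {X : Type} [DecidableEq X] {e f : X} {g : X × X → X}
    {s t : Option (Finset X)} {l : List ((X × X) × Set X)}
    (hw : (setProgram e f).Walk s t l) (hg : ∀ x ∈ l, g x.1 ∈ x.2) :
    (∀ A, s = some A → (∀ a ∈ A, Gen g e a) →
      (t = none → Gen g e f) ∧ ∀ x ∈ l, Gen g e x.1.1 ∧ Gen g e x.1.2) ∧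
        (s = none → l = []) := by
  induction hw with
  | nil s =>
    refine ⟨fun A hA _ => ⟨fun h => ?_, fun x hx => by simp at hx⟩, fun _ => rfl⟩
    rw [hA] at h
    exact absurd h (by simp)
  | @free s t u l h hw ih =>
    have ih := ih hg
    cases s with
    | none => simp [setProgram] at h
    | some A =>
      cases t with
      | some A' => simp [setProgram] at h
      | none =>
        have hf : f ∈ A := h
        refine ⟨fun A' hA' hgen => ?_, fun h => absurd h (by simp)⟩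
        have : A = A' := Option.some_injective _ hA'
        subst this
        have hl := ih.2 rfl
        subst hl
        exact ⟨fun _ => hgen f hf, fun x hx => by simp at hx⟩
  | @test s t u x l h hw ih =>
    have ih := ih fun y hy => hg y (List.mem_cons_of_mem _ hy)
    obtain ⟨r, Z⟩ := x
    cases s with
    | none => simp [setProgram] at h
    | some A =>
      cases t with
      | none => simp [setProgram] at h
      | some A' =>
        obtain ⟨h1, h2, c, rfl, rfl⟩ := h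
        refine ⟨fun A' hA' hgen => ?_, fun h => absurd h (by simp)⟩
        have : A = A' := Option.some_injective _ hA'
        subst this
        have hc : g r = c := hg (r, {c}) (List.mem_cons_self ..)
        have h3 : ∀ a ∈ insert c A, Gen g e a := by
          intro a ha
          rw [mem_insert] at ha
          rcases ha with rfl | ha
          · rw [← hc]
            exact Gen.mul (hgen _ h1) (hgen _ h2)
          · exact hgen a ha
        obtain ⟨h4, h5⟩ := ih.1 _ rfl h3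
        refine ⟨h4, fun x hx => ?_⟩
        rw [List.mem_cons] at hx
        rcases hx with rfl | hx
        · exact ⟨hgen _ h1, hgen _ h2⟩
        · exact h5 x hx

lemma setProgram_gen {X : Type} [DecidableEq X] {e f : X} {g : X × X → X} {p : X}
    (hp : Gen g e p) : ∀ A : Finset X, e ∈ A → ∃ (A' : Finset X) (l : List ((X × X) × Set X)),
      A ⊆ A' ∧ p ∈ A' ∧ (setProgram e f).Walk (some A) (some A') l ∧ ∀ x ∈ l, g x.1 ∈ x.2 := by
  induction hp with
  | base =>
    intro A hA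
    exact ⟨A, [], Subset.refl A, hA, NBP.Walk.nil _, by simp⟩
  | @mul p q _ _ ih1 ih2 =>
    intro A hA
    obtain ⟨A₁, l₁, h1, h2, h3, h4⟩ := ih1 A hA
    obtain ⟨A₂, l₂, g1, g2, g3, g4⟩ := ih2 A₁ (h1 hA)
    refine ⟨insert (g (p, q)) A₂, l₁ ++ (l₂ ++ [((p, q), {g (p, q)})]),
      h1.trans (g1.trans (subset_insert _ _)), mem_insert_self _ _,
      walk_append h3 (walk_append g3 (NBP.Walk.test ?_ (NBP.Walk.nil _))), ?_⟩
    · exact ⟨g1 h2, g2, g (p, q), rfl, rfl⟩
    · intro x hx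
      rw [List.mem_append, List.mem_append, List.mem_singleton] at hx
      rcases hx with hx | hx | rfl
      · exact h4 x hx
      · exact g4 x hx
      · exact rfl

theorem upper {n : ℕ} (e f : Fin n) : SolvesGen (setProgram e f) e f ∧
    Frugal (setProgram e f) e 0 ∧ Fintype.card (Option (Finset (Fin n))) = 2 ^ n + 1 := by
  refine ⟨fun g => ⟨?_, fun hf => ?_⟩, fun g l hl => ?_, ?_⟩
  · rintro ⟨l, hl⟩
    refine ((setProgram_walk (g := g) hl.1 hl.2).1 {e} rfl ?_).1 rfl
    intro a ha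
    rw [mem_singleton] at ha
    rw [ha]
    exact Gen.base
  · obtain ⟨A, l, h1, h2, h3, h4⟩ := setProgram_gen (f := f) hf {e} (mem_singleton_self e)
    refine ⟨l ++ [], ?_, ?_⟩
    · refine walk_append h3 (NBP.Walk.free ?_ (NBP.Walk.nil _))
      exact h2
    · intro x hx
      rw [List.append_nil] at hx
      exact h4 x hx
  · have h1 := ((setProgram_walk (g := g) hl.1 hl.2).1 {e} rfl (by
      intro a ha
      rw [mem_singleton] at ha
      rw [ha]
      exact Gen.base)).2
    have h2 : wasteful g e l = ∅ := by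
      refine Set.eq_empty_of_forall_notMem ?_
      rintro r ⟨⟨Z, hZ⟩, h⟩
      exact h (h1 _ hZ)
    rw [h2, Set.ncard_empty]
  · rw [Fintype.card_option, Fintype.card_finset, Fintype.card_fin]

end Pool.Agent.V7H70.DG
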