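import Pool.Agent.V7H70.DG.Count

/-!
# The graph, and words with few missing children
-/

set_option autoImplicit false

namespace Pool.Agent.V7H70.DG

open Finset

open scoped Classical

/-- The nodes of the graph: `M + 2` nodes of a path, and `(J + 1) (M + 1)` paths with `M + 1`
nodes. -/
abbrev Node (J M : ℕ) : Type := Fin (M + 2) ⊕ (Fin (J + 1) × Fin (M + 1) × Fin (M + 1))

variable {J M : ℕ}

/-- The main nodes of level `i`: for `i ≥ 1` the last nodes of the paths of the level. -/
def mainNode (J : ℕ) {M : ℕ} : ℕ → Fin (M + 1) → Node J M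
  | 0, c => Sum.inl c.succ
  | i + 1, c => if h : i < J + 1 then Sum.inr (⟨i, h⟩, c, Fin.last M) else Sum.inl c.succ

/-- The left child. -/
def lcN : Node J M → Node J M
  | Sum.inl _ => Sum.inl 0
  | Sum.inr (i, a, c) => Fin.cases (Sum.inl a.succ) (fun c' => Sum.inr (i, a, c'.castSucc)) c

/-- The right child. -/
def rcN : Node J M → Node J M
  | Sum.inl t => Fin.cases (Sum.inl 0) (fun s => Sum.inl s.castSucc) t
  | Sum.inr (i, _, c) => mainNode J i.val c

/-- The rank. -/
def rankN : Node J M → ℕ
  | Sum.inl t => t.val
  | Sum.inr (i, _, c) => M + 2 + i.val * (M + 1) + c.val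

lemma mainNode_ne (i : ℕ) (c : Fin (M + 1)) : mainNode J i c ≠ Sum.inl 0 := by
  cases i with
  | zero => simp [mainNode, Fin.succ_ne_zero]
  | succ i =>
    by_cases h : i < J + 1
    · simp [mainNode, h]
    · simp [mainNode, h, Fin.succ_ne_zero]

lemma mainNode_inj {i : ℕ} {c c' : Fin (M + 1)} (h : mainNode J i c = mainNode J i c') :
    c = c' := by
  cases i with
  | zero => simpa [mainNode] using h
  | succ i =>
    by_cases h1 : i < J + 1
    · simpa [mainNode, h1] using h
    · simpa [mainNode, h1] using h

lemma rank_mainNode (i : Fin (J + 1)) (c : Fin (M + 1)) :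
    rankN (mainNode J i.val c) < M + 2 + i.val * (M + 1) := by
  obtain ⟨i, hi⟩ := i
  cases i with
  | zero =>
    simp only [mainNode, rankN, Fin.val_succ]
    omega
  | succ i =>
    have h : i < J + 1 := by omega
    simp only [mainNode, h, dif_pos, rankN, Fin.val_last]
    ring_nf
    omega

lemma mainNode_inj' {i i' : Fin (J + 1)} {c c' : Fin (M + 1)}
    (h : mainNode J i.val c = mainNode J i'.val c') : i = i' ∧ c = c' := by
  obtain ⟨i, hi⟩ := i
  obtain ⟨i', hi'⟩ := i'
  cases i with
  | zero =>
    cases i' with
    | zero => exact ⟨rfl, mainNode_inj h⟩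
    | succ i' =>
      have h2 : i' < J + 1 := by omega
      simp [mainNode, h2] at h
  | succ i =>
    have h1 : i < J + 1 := by omega
    cases i' with
    | zero => simp [mainNode, h1] at h
    | succ i' =>
      have h2 : i' < J + 1 := by omega
      simp only [mainNode, h1, h2, dif_pos, Sum.inr.injEq, Prod.mk.injEq, Fin.mk.injEq] at h
      exact ⟨by simp [h.1], h.2.1⟩

/-- The graph. -/
def graph (J M : ℕ) : Dag (Node J M) where
  src := Sum.inl 0
  root := Sum.inr (Fin.last J, 0, Fin.last M)
  lc := lcN
  rc := rcN
  rank := rankN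
  lc_lt := by
    rintro (t | ⟨i, a, c⟩) h
    · have h1 : t ≠ 0 := fun h2 => h (by rw [h2])
      simp only [lcN, rankN, Fin.val_zero]
      exact Nat.pos_of_ne_zero fun h2 => h1 (Fin.ext h2)
    · refine Fin.cases ?_ (fun c' => ?_) c
      · simp only [lcN, Fin.cases_zero, rankN, Fin.val_succ, Fin.val_zero]
        have := a.2
        have : 0 ≤ i.val * (M + 1) := Nat.zero_le _
        omega
      · simp only [lcN, Fin.cases_succ, rankN, Fin.val_succ, Fin.val_castSucc]
        omega
  rc_lt := by
    rintro (t | ⟨i, a, c⟩) h
    · have h1 : t ≠ 0 := fun h2 => h (by rw [h2])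
      obtain ⟨s, rfl⟩ := Fin.exists_succ_eq.2 h1
      simp [rcN, rankN]
    · have h1 := rank_mainNode i c
      have h2 : rankN (Sum.inr (i, a, c) : Node J M) = M + 2 + i.val * (M + 1) + c.val := rfl
      rw [h2]
      exact lt_of_lt_of_le h1 (Nat.le_add_right _ _)
  inj := by
    rintro (t | ⟨i, a, c⟩) (t' | ⟨i', a', c'⟩) h h' h1 h2
    · have h3 : t ≠ 0 := fun h2 => h (by rw [h2])
      have h3' : t' ≠ 0 := fun h2 => h' (by rw [h2])
      obtain ⟨s, rfl⟩ := Fin.exists_succ_eq.2 h3
      obtain ⟨s', rfl⟩ := Fin.exists_succ_eq.2 h3'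
      simp only [rcN, Fin.cases_succ, Sum.inl.injEq] at h2
      rw [Fin.castSucc_injective _ h2]
    · exfalso
      revert h1
      refine Fin.cases ?_ (fun c' => ?_) c'
      · simp only [lcN, Fin.cases_zero, Sum.inl.injEq]
        exact fun h => (Fin.succ_ne_zero a') h.symm
      · simp [lcN]
    · exfalso
      revert h1
      refine Fin.cases ?_ (fun c' => ?_) c
      · simp only [lcN, Fin.cases_zero, Sum.inl.injEq]
        exact fun h => (Fin.succ_ne_zero a) h
      · simp [lcN]
    · obtain ⟨rfl, rfl⟩ := mainNode_inj' h2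
      congr 2
      revert h1
      refine Fin.cases ?_ (fun c' => ?_) c
      · simp only [lcN, Fin.cases_zero, Sum.inl.injEq, Prod.mk.injEq, and_true]
        exact fun h => Fin.succ_injective _ h
      · simp only [lcN, Fin.cases_succ, Sum.inr.injEq, Prod.mk.injEq, true_and, and_true]
        exact fun h => h
  le_root := by
    rintro (t | ⟨i, a, c⟩)
    · simp only [rankN, Fin.val_last]
      have := t.2
      have : 0 ≤ J * (M + 1) := Nat.zero_le _
      omega
    · simp only [rankN, Fin.val_last]
      have h1 : i.val * (M + 1) ≤ J * (M + 1) := Nat.mul_le_mul_right _ (Nat.lt_succ_iff.1 i.2)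
      have := c.2
      omega
  root_ne := by simp

lemma card_node (J M : ℕ) : Fintype.card (Node J M) = M + 2 + (J + 1) * (M + 1) ^ 2 := by
  simp [Fintype.card_sum, Fintype.card_prod]
  ring

/-- The number of the main nodes of level `i` in a word. -/
noncomputable def cnt (i : ℕ) (w : List (Node J M)) : ℕ :=
  ((univ : Finset (Fin (M + 1))).filter fun c => mainNode J i c ∈ w).card

lemma cnt_append (i : ℕ) (u v : List (Node J M)) : cnt i (u ++ v) ≤ cnt i u + cnt i v := by
  unfold cnt
  refine le_trans (card_le_card ?_) (card_union_le _ _)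
  intro c hc
  simpa [mem_union, mem_filter] using hc

lemma cnt_singleton (i : ℕ) (a : Node J M) : cnt i [a] ≤ 1 := by
  unfold cnt
  rw [card_le_one]
  intro c hc c' hc'
  simp only [List.mem_singleton, mem_filter, mem_univ, true_and] at hc hc'
  exact mainNode_inj (hc.trans hc'.symm)

lemma cnt_split (i m : ℕ) (w : List (Node J M)) : m ≤ cnt i w →
    ∃ u v, w = u ++ v ∧ cnt i u = m ∧ cnt i w ≤ m + cnt i v := by
  induction w using List.reverseRecOn with
  | nil =>
    intro h
    have h0 : cnt i ([] : List (Node J M)) = 0 := by simp [cnt]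
    exact ⟨[], [], rfl, by omega, by omega⟩
  | append_singleton w a ih =>
    intro h
    by_cases h1 : m ≤ cnt i w
    · obtain ⟨u, v, rfl, h2, h3⟩ := ih h1
      refine ⟨u, v ++ [a], by simp, h2, ?_⟩
      rw [List.append_assoc]
      have := cnt_append i u (v ++ [a])
      omega
    · have h2 := cnt_append i w [a]
      have h3 := cnt_singleton i a
      exact ⟨w ++ [a], [], by simp, by omega, by omega⟩

/-- The argument for one level. -/
lemma block {b : ℕ} {i : ℕ} (hi : i < J + 1) {w : List (Node J M)}
    (hm : (missing (graph J M) w).card ≤ b) (h : b + 1 ≤ cnt (i + 1) w) :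
    M + 1 ≤ cnt i w + b := by
  set i' : Fin (J + 1) := ⟨i, hi⟩ with hi'
  have hmain : ∀ a : Fin (M + 1), mainNode J (i + 1) a = Sum.inr (i', a, Fin.last M) := by
    intro a
    simp [mainNode, hi, hi']
  -- a path with all nodes in the word
  have hex : ∃ a : Fin (M + 1), ∀ c : Fin (M + 1), (Sum.inr (i', a, c) : Node J M) ∈ w := by
    by_contra hcon
    push Not at hcon
    have hmiss : ∀ a : Fin (M + 1), ∃ c : Fin (M + 1), mainNode J (i + 1) a ∈ w →
        (Sum.inr (i', a, c) : Node J M) ∈ missing (graph J M) w := by
      intro a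
      by_cases ha : mainNode J (i + 1) a ∈ w
      · have h1 : ∃ c : Fin M, (Sum.inr (i', a, c.castSucc) : Node J M) ∉ w ∧
            (Sum.inr (i', a, c.succ) : Node J M) ∈ w := by
          by_contra hcon2
          push Not at hcon2
          obtain ⟨c, hc⟩ := hcon a
          refine hc ?_
          clear hc
          induction c using Fin.reverseInduction with
          | last => rw [← hmain]; exact ha
          | cast c ih =>
            by_contra h2
            exact hcon2 c h2 ih
        obtain ⟨c, h2, h3⟩ := h1
        refine ⟨c.castSucc, fun _ => ?_⟩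
        rw [mem_missing]
        refine ⟨by simp [graph], h2, _, h3, by simp [graph], Or.inl ?_⟩
        simp [graph, lcN]
      · exact ⟨0, fun h => absurd h ha⟩
    choose f hf using hmiss
    have h1 : ((univ : Finset (Fin (M + 1))).filter fun a => mainNode J (i + 1) a ∈ w).card ≤
        (missing (graph J M) w).card := by
      refine card_le_card_of_injOn (fun a => (Sum.inr (i', a, f a) : Node J M)) ?_ ?_
      · intro a ha
        rw [mem_coe, mem_filter] at ha
        exact hf a ha.2
      · intro a _ a' _ h
        simp only [Sum.inr.injEq, Prod.mk.injEq] at h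
        exact h.2.1
    unfold cnt at h
    omega
  obtain ⟨a, ha⟩ := hex
  have hcov : (univ : Finset (Fin (M + 1))) ⊆
      (univ.filter fun c => mainNode J i c ∈ w) ∪
        (univ.filter fun c => mainNode J i c ∈ missing (graph J M) w) := by
    intro c _
    rw [mem_union, mem_filter, mem_filter]
    by_cases h1 : mainNode J i c ∈ w
    · exact Or.inl ⟨mem_univ _, h1⟩
    · refine Or.inr ⟨mem_univ _, ?_⟩
      rw [mem_missing]
      exact ⟨mainNode_ne i c, h1, _, ha c, by simp [graph], Or.inr rfl⟩
  have h1 := (card_le_card hcov).trans (card_union_le _ _)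
  rw [card_univ, Fintype.card_fin] at h1
  have h2 : (univ.filter fun c => mainNode J i c ∈ missing (graph J M) w).card ≤
      (missing (graph J M) w).card := by
    refine card_le_card_of_injOn (fun c => mainNode J i c) ?_ ?_
    · intro c hc
      rw [mem_coe, mem_filter] at hc
      exact hc.2
    · intro c _ c' _ h
      exact mainNode_inj h
  unfold cnt
  omega

/-- A word with few missing children in all intervals is long. -/
lemma word_long {b : ℕ} (hM : 3 * b + 1 ≤ M) : ∀ (i : ℕ), i ≤ J + 1 → ∀ w : List (Node J M),
    (∀ I : List (Node J M), I <:+: w → (missing (graph J M) I).card ≤ b) → b + 1 ≤ cnt i w →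
      2 ^ i ≤ w.length := by
  intro i
  induction i with
  | zero =>
    intro _ w _ h
    cases w with
    | nil =>
      have h0 : cnt 0 ([] : List (Node J M)) = 0 := by simp [cnt]
      omega
    | cons a w =>
      rw [pow_zero, List.length_cons]
      omega
  | succ i ih =>
    intro hi w hI h
    have h1 := block (by omega) (hI w (List.infix_refl w)) h
    obtain ⟨u, v, rfl, h2, h3⟩ := cnt_split i (b + 1) w (by omega)
    have h4 := ih (by omega) u (fun I h => hI I (h.trans ⟨[], v, by simp⟩)) (by omega)
    have h5 := ih (by omega) v (fun I h => hI I (h.trans ⟨u, [], by simp⟩)) (by omega)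
    rw [List.length_append, pow_succ]
    omega

lemma below_main (c : Fin (M + 1)) : Below (graph J M) (mainNode J J c) := by
  have h1 : ∀ c : Fin (M + 1), Below (graph J M) (Sum.inr (Fin.last J, 0, c)) := by
    intro c
    induction c using Fin.reverseInduction with
    | last => exact Below.root
    | cast c ih =>
      have h2 := Below.left ih (by simp [graph])
      simpa [graph, lcN] using h2
  exact Below.right (h1 c) (by simp [graph])

lemma cnt_full {w : List (Node J M)} (h : ∀ v, Below (graph J M) v → v ≠ (graph J M).src → v ∈ w) :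
    cnt J w = M + 1 := by
  unfold cnt
  rw [filter_true_of_mem fun c _ => h _ (below_main c) (mainNode_ne J c), card_univ,
    Fintype.card_fin]

end Pool.Agent.V7H70.DG
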